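import Mathlib
import Pool.Agent.Helper77.TP.StructMain

/-!
# Families whose pairwise unions give many subsets: local structure below `2 · 2^n`

Let `F` be a family of subsets of a set `X` with `2n` elements and let `TT` be any collection of at
most `2^(μ n)` subsets of `X`. Let every subset of `X` be a union `A ∪ B` with `A, B ∈ F`. If `F`
has fewer than `(2 - ε) 2^n` members then more than two thirds of them have density about
`1 - 1/√2` on every `T ∈ TT` (the error being at most `ε |X|` points), and about `8/9` of all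
subsets `S` have only representations `S = A ∪ B` that look on every `T ∈ TT` like two random sets
of that density.
-/

namespace Pool.Agent.Results.MP_f69198_co.LocalQuasiRandom

open Finset

/-- Every subset of the ground set is the union of two members of `F`. -/
def UnionBasis {N : ℕ} (F : Finset (Finset (Fin N))) : Prop :=
  ∀ S : Finset (Fin N), ∃ A ∈ F, ∃ B ∈ F, A ∪ B = S

open scoped Classical in
/-- The set of all unions `A ∪ B` of two members of `F` (`A = B` allowed). -/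
noncomputable def Unions {N : ℕ} (F : Finset (Finset (Fin N))) : Finset (Finset (Fin N)) :=
  univ.filter fun S => ∃ A ∈ F, ∃ B ∈ F, A ∪ B = S

/-- `A` has about `(1 - 1/√2) |T|` points in `T`. -/
def Balanced {N : ℕ} (ε : ℝ) (T A : Finset (Fin N)) : Prop :=
  |(#(A ∩ T) : ℝ) - (1 - 1 / √2) * #T| ≤ ε * N

/-- On `T` the pair `(A, B)` looks like a random pair of sets of density `1 - 1/√2`. -/
def QuasiRandom {N : ℕ} (ε : ℝ) (T A B : Finset (Fin N)) : Prop :=
  Balanced ε T A ∧ Balanced ε T B ∧ |(#(A ∩ B ∩ T) : ℝ) - (3 / 2 - √2) * #T| ≤ ε * N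

open scoped Classical in
/-- The subsets `S` all of whose representations `S = A ∪ B` with `A, B ∈ F` are quasi-random on
every `T ∈ TT`. -/
noncomputable def OnlyQuasiRandom {N : ℕ} (ε : ℝ) (TT F : Finset (Finset (Fin N))) :
    Finset (Finset (Fin N)) :=
  univ.filter fun S => ∀ A ∈ F, ∀ B ∈ F, A ∪ B = S → ∀ T ∈ TT, QuasiRandom ε T A B

open scoped Classical in
/-- The members of `F` which are balanced on every `T ∈ TT`. -/
noncomputable def Level {N : ℕ} (ε : ℝ) (TT F : Finset (Finset (Fin N))) :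
    Finset (Finset (Fin N)) :=
  F.filter fun A => ∀ T ∈ TT, Balanced ε T A

theorem balanced_mono {N : ℕ} {ε ε' : ℝ} (h : ε ≤ ε') {T A : Finset (Fin N)}
    (hq : Balanced ε T A) : Balanced ε' T A := by
  have hN : (0 : ℝ) ≤ N := Nat.cast_nonneg _
  exact le_trans hq (mul_le_mul_of_nonneg_right h hN)

theorem qr_mono {N : ℕ} {ε ε' : ℝ} (h : ε ≤ ε') {T A B : Finset (Fin N)}
    (hq : QuasiRandom ε T A B) : QuasiRandom ε' T A B := by
  have hN : (0 : ℝ) ≤ N := Nat.cast_nonneg _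
  exact ⟨balanced_mono h hq.1, balanced_mono h hq.2.1,
    hq.2.2.trans (mul_le_mul_of_nonneg_right h hN)⟩

theorem level_mono {N : ℕ} {ε ε' : ℝ} (h : ε ≤ ε') (TT F : Finset (Finset (Fin N))) :
    Level ε TT F ⊆ Level ε' TT F := by
  classical
  intro A hA
  rw [Level, mem_filter] at hA ⊢
  exact ⟨hA.1, fun T hT => balanced_mono h (hA.2 T hT)⟩

theorem only_mono {N : ℕ} {ε ε' : ℝ} (h : ε ≤ ε') (TT F : Finset (Finset (Fin N))) :
    OnlyQuasiRandom ε TT F ⊆ OnlyQuasiRandom ε' TT F := by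
  classical
  intro S hS
  rw [OnlyQuasiRandom, mem_filter] at hS ⊢
  exact ⟨hS.1, fun A hA B hB hAB T hT => qr_mono h (hS.2 A hA B hB hAB T hT)⟩

/-- The structure theorem for one `ε`. -/
theorem main (ε : ℝ) (hε : 0 < ε) : ∃ μ : ℝ, 0 < μ ∧ ∃ n₀ : ℕ, ∀ n ≥ n₀,
    ∀ F TT : Finset (Finset (Fin (2 * n))), (#TT : ℝ) ≤ 2 ^ (μ * n) → ∃ F0 ⊆ Level ε TT F,
      (#(Unions F) : ℝ) ≤ (#F0 : ℝ) ^ 2 / 2 + ((#F : ℝ) - #F0) ^ 2 / 4 + ε * 4 ^ n ∧
      (#(Unions F) : ℝ) - ((#F : ℝ) - #F0) ^ 2 / 4 - ε * 4 ^ n ≤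
        (#(Unions F ∩ OnlyQuasiRandom ε TT F) : ℝ) := by
  classical
  obtain ⟨μ, hμ, n₀, h⟩ := Pool.Agent.Helper77.TP.local_structure ε hε
  refine ⟨μ, hμ, n₀, fun n hn F TT hTT => ?_⟩
  have hexp : (2 : ℝ) ^ (μ * (n : ℝ)) ≤ Real.exp (μ * n) := by
    rw [Real.rpow_def_of_pos (by norm_num)]
    apply Real.exp_le_exp.2
    have h1 : Real.log 2 ≤ 1 := by
      have := Real.log_le_sub_one_of_pos (show (0 : ℝ) < 2 by norm_num)
      linarith
    have h2 : 0 ≤ μ * n := by positivity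
    nlinarith
  obtain ⟨F0, hF0, h1, h2, h3⟩ := h n hn F TT (hTT.trans hexp)
  refine ⟨F0, ?_, ?_, ?_⟩
  · intro A hA
    rw [Level, mem_filter]
    exact ⟨hF0 hA, fun T hT => h1 A hA T hT⟩
  · have hUeq : (#(Unions F) : ℝ) = #(Pool.Agent.Helper77.TP.unions F) := by
      congr 2
    rw [hUeq]
    exact h2
  · have hsub : Unions F ⊆ (Unions F ∩ OnlyQuasiRandom ε TT F) ∪
        Pool.Agent.Helper77.TP.odd ε TT F := by
      intro S hS
      rw [mem_union]
      by_cases hO : S ∈ Pool.Agent.Helper77.TP.odd ε TT F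
      · exact Or.inr hO
      · refine Or.inl (mem_inter.2 ⟨hS, ?_⟩)
        rw [OnlyQuasiRandom, mem_filter]
        refine ⟨mem_univ _, fun A hA B hB hAB T hT => ?_⟩
        by_contra hq
        apply hO
        rw [Pool.Agent.Helper77.TP.odd, mem_filter]
        exact ⟨mem_univ _, A, hA, B, hB, hAB, fun hQ => hq (hQ T hT)⟩
    have h5 := (card_le_card hsub).trans (card_union_le _ _)
    have h6 : (#(Unions F) : ℝ) ≤ #(Unions F ∩ OnlyQuasiRandom ε TT F) +
        #(Pool.Agent.Helper77.TP.odd ε TT F) := by exact_mod_cast h5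
    linarith

lemma aux1 {m f P e : ℝ} (hm : 0 ≤ m) (hf : 0 ≤ f) (hP : 0 < P) (he : 0 < e) (he2 : e ≤ 2)
    (hmP : m < (2 - e) * P) (h : (1 - e / 4) * (P * P) ≤ f ^ 2 / 2 + (m - f) ^ 2 / 4) :
    2 / 3 * m < f := by
  by_contra hcon
  push Not at hcon
  have h1 : f ^ 2 / 2 + (m - f) ^ 2 / 4 ≤ m ^ 2 / 4 := by nlinarith
  have h2 : m ^ 2 ≤ ((2 - e) * P) ^ 2 := by gcongr
  have h3 : ((2 - e) * P) ^ 2 = (2 - e) ^ 2 * (P * P) := by ring
  have h4 : 0 < P * P := by positivity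
  have h5 : (2 - e) ^ 2 * (P * P) ≤ (4 - 2 * e) * (P * P) :=
    mul_le_mul_of_nonneg_right (by nlinarith) h4.le
  have h6 : 0 < e * (P * P) := by positivity
  have h7 : (1 - e / 4) * (P * P) = P * P - e * (P * P) / 4 := by ring
  have h8 : (4 - 2 * e) * (P * P) = 4 * (P * P) - 2 * (e * (P * P)) := by ring
  linarith

lemma aux2 {m f P : ℝ} (hm : 0 ≤ m) (hf : 0 ≤ f) (hP : 0 < P)
    (hmP : m ≤ 7 / 4 * P) (h : (1 - 1 / 100000) * (P * P) ≤ f ^ 2 / 2 + (m - f) ^ 2 / 4) :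
    795 / 1000 * m ≤ f := by
  by_contra hcon
  push Not at hcon
  have h1 : f ^ 2 ≤ 795 / 1000 * m * f := by nlinarith
  have h2 : f ^ 2 / 2 + (m - f) ^ 2 / 4 ≤ m * f * (3 / 4 * (795 / 1000) - 1 / 2) + m ^ 2 / 4 := by
    nlinarith
  have h3 : m * f ≤ 795 / 1000 * m ^ 2 := by nlinarith
  have h4 : m ^ 2 ≤ (7 / 4 * P) ^ 2 := by gcongr
  have h5 : (7 / 4 * P) ^ 2 = 49 / 16 * (P * P) := by ring
  have h6 : 0 < P * P := by positivity
  linarith

/-- For every `ε > 0` there is `μ > 0` such that for all large `n`, for every family `F` and every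
collection `TT` of at most `2 ^ (μ n)` subsets of a set of `2n` elements:
(1) there is a subfamily `F0` of members balanced on every `T ∈ TT` such that `F` has at most
`|F0|²/2 + (|F| - |F0|)²/4 + ε 4^n` unions, and all but `(|F| - |F0|)²/4 + ε 4^n` of the unions
have only representations which are quasi-random on every `T ∈ TT`;
(2) if all subsets are unions and `|F| < (2 - ε) 2^n` then more than two thirds of the members are
balanced on every `T ∈ TT`, and at least `(8/9 - ε) 4^n` subsets have only representations which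
are quasi-random on every `T ∈ TT`;
(3) if all subsets are unions and `|F| ≤ 1.75 · 2^n` the two proportions are at least `0.795` and
`0.967`. -/
theorem result (ε : ℝ) (hε : 0 < ε) : ∃ μ : ℝ, 0 < μ ∧ ∃ n₀ : ℕ, ∀ n ≥ n₀,
    ∀ F TT : Finset (Finset (Fin (2 * n))), (#TT : ℝ) ≤ 2 ^ (μ * n) →
      (∃ F0 ⊆ Level ε TT F,
        (#(Unions F) : ℝ) ≤ (#F0 : ℝ) ^ 2 / 2 + ((#F : ℝ) - #F0) ^ 2 / 4 + ε * 4 ^ n ∧
        (#(Unions F) : ℝ) - ((#F : ℝ) - #F0) ^ 2 / 4 - ε * 4 ^ n ≤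
          (#(Unions F ∩ OnlyQuasiRandom ε TT F) : ℝ)) ∧
      (UnionBasis F → (#F : ℝ) < (2 - ε) * 2 ^ n →
        2 / 3 * (#F : ℝ) < #(Level ε TT F) ∧
        (8 / 9 - ε) * (4 : ℝ) ^ n ≤ (#(OnlyQuasiRandom ε TT F) : ℝ)) ∧
      (UnionBasis F → (#F : ℝ) ≤ 7 / 4 * 2 ^ n →
        795 / 1000 * (#F : ℝ) ≤ #(Level ε TT F) ∧
        967 / 1000 * (4 : ℝ) ^ n ≤ (#(OnlyQuasiRandom ε TT F) : ℝ)) := by
  classical
  set e : ℝ := min (ε / 4) (1 / 100000) with he
  have he0 : 0 < e := lt_min (by positivity) (by norm_num)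
  have he1 : e ≤ ε / 4 := min_le_left _ _
  have he2 : e ≤ 1 / 100000 := min_le_right _ _
  have heε : e ≤ ε := by linarith
  obtain ⟨μ, hμ, n₀, h⟩ := main e he0
  refine ⟨μ, hμ, n₀, ?_⟩
  intro n hn F TT hTT
  obtain ⟨F0, hF0, h1, h2⟩ := h n hn F TT hTT
  have h4 : (4 : ℝ) ^ n = 2 ^ n * 2 ^ n := by rw [← mul_pow]; norm_num
  have hp : (0 : ℝ) < 2 ^ n := by positivity
  have hp4 : (0 : ℝ) < 4 ^ n := by positivity
  have hL : F0 ⊆ Level ε TT F := hF0.trans (level_mono heε TT F)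
  have hLc : (#F0 : ℝ) ≤ #(Level ε TT F) := by exact_mod_cast card_le_card hL
  have hO : (#(Unions F ∩ OnlyQuasiRandom e TT F) : ℝ) ≤
      #(Unions F ∩ OnlyQuasiRandom ε TT F) := by
    exact_mod_cast card_le_card (inter_subset_inter_left (only_mono heε TT F))
  have hO' : (#(Unions F ∩ OnlyQuasiRandom ε TT F) : ℝ) ≤ #(OnlyQuasiRandom ε TT F) := by
    exact_mod_cast card_le_card inter_subset_right
  have hee : e * (4 : ℝ) ^ n ≤ ε * 4 ^ n := by gcongr
  have hall : UnionBasis F → (#(Unions F) : ℝ) = 4 ^ n := by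
    intro hB
    have h3 : Unions F = univ := by
      ext S
      simp only [Unions, mem_filter, mem_univ, true_and, iff_true]
      exact hB S
    rw [h3, card_univ, Fintype.card_finset, Fintype.card_fin, pow_mul]
    push_cast
    norm_num
  obtain ⟨m, hm⟩ : ∃ m : ℝ, m = #F := ⟨_, rfl⟩
  obtain ⟨f, hf⟩ : ∃ f : ℝ, f = #F0 := ⟨_, rfl⟩
  have hm0 : 0 ≤ m := by rw [hm]; positivity
  have hf0 : 0 ≤ f := by rw [hf]; positivity
  have hfm : f ≤ m := by
    rw [hf, hm]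
    have : F0 ⊆ F := hF0.trans (by unfold Level; exact filter_subset _ _)
    exact_mod_cast card_le_card this
  rw [← hm, ← hf] at h1 h2
  rw [← hf] at hLc
  refine ⟨⟨F0, hL, ?_, ?_⟩, ?_, ?_⟩
  · rw [← hf, ← hm]
    linarith
  · rw [← hf, ← hm]
    linarith
  · intro hB hlt
    rw [hall hB] at h1 h2
    rw [← hm] at hlt ⊢
    have hε2 : ε ≤ 2 := by
      by_contra hc
      push Not at hc
      have : (2 - ε) * (2 : ℝ) ^ n < 0 := mul_neg_of_neg_of_pos (by linarith) hp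
      linarith
    have k1 : (1 - ε / 4) * ((2 : ℝ) ^ n * 2 ^ n) ≤ f ^ 2 / 2 + (m - f) ^ 2 / 4 := by
      rw [← h4]
      have e1 : (1 - ε / 4) * (4 : ℝ) ^ n = 4 ^ n - ε / 4 * 4 ^ n := by ring
      have e2 : e * (4 : ℝ) ^ n ≤ ε / 4 * 4 ^ n := by gcongr
      rw [e1]
      linarith
    have k2 := aux1 hm0 hf0 hp hε hε2 hlt k1
    refine ⟨lt_of_lt_of_le k2 hLc, ?_⟩
    have k3 : m - f ≤ 2 / 3 * 2 ^ n := by
      have : (2 - ε) * (2 : ℝ) ^ n ≤ 2 * 2 ^ n := by
        apply mul_le_mul_of_nonneg_right (by linarith) hp.le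
      linarith
    have k4 : (m - f) ^ 2 ≤ (2 / 3 * 2 ^ n) ^ 2 := by
      have : 0 ≤ m - f := by linarith
      gcongr
    have k5 : (2 / 3 * (2 : ℝ) ^ n) ^ 2 = 4 / 9 * 4 ^ n := by rw [h4]; ring
    rw [k5] at k4
    have k6 : (8 / 9 - ε) * (4 : ℝ) ^ n = 8 / 9 * 4 ^ n - ε * 4 ^ n := by ring
    rw [k6]
    linarith
  · intro hB hle
    rw [hall hB] at h1 h2
    rw [← hm] at hle ⊢
    have k1 : (1 - 1 / 100000) * ((2 : ℝ) ^ n * 2 ^ n) ≤ f ^ 2 / 2 + (m - f) ^ 2 / 4 := by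
      rw [← h4]
      have e1 : (1 - 1 / 100000) * (4 : ℝ) ^ n = 4 ^ n - 1 / 100000 * 4 ^ n := by ring
      have e2 : e * (4 : ℝ) ^ n ≤ 1 / 100000 * 4 ^ n := by gcongr
      rw [e1]
      linarith
    have k2 := aux2 hm0 hf0 hp hle k1
    refine ⟨k2.trans hLc, ?_⟩
    have k3 : m - f ≤ 35875 / 100000 * 2 ^ n := by linarith
    have k4 : (m - f) ^ 2 ≤ (35875 / 100000 * 2 ^ n) ^ 2 := by
      have : 0 ≤ m - f := by linarith
      gcongr
    have k5 : (35875 / 100000 * (2 : ℝ) ^ n) ^ 2 = (35875 / 100000) ^ 2 * 4 ^ n := by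
      rw [h4]; ring
    rw [k5] at k4
    have k7 : e * (4 : ℝ) ^ n ≤ 1 / 100000 * 4 ^ n := by gcongr
    norm_num at k4
    linarith

end Pool.Agent.Results.MP_f69198_co.LocalQuasiRandom
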