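import Mathlib
import Pool.Agent.Helper77.TP.Classes

/-!
# Families made of few structured parts are not better than two complementary power sets

Let `F` be a family of subsets of a set `X` with `2n` elements which is covered by at most
`2^(μ n)` structured parts. Then `F` has at most `|F|²/4 + ε 4^n` pairwise unions; so if all subsets
are unions of two members then `|F| ≥ (2 - ε) 2^n > 1.75 * 2^n`. A part is structured if it

* is determined, up to multiplicity `2^(μ n)`, by its traces on a set of at most `θ n` points, or is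
  contained in an affine subspace over the field with two elements with at most `2^(θ n)` members
  (`θ < 1 / h(1 - 1/√2) = 1.146...`);
* is contained in a down-set with at most `2^(1.001 n)` members;
* is contained in a product, with at most `2^((1 + μ) n)` members, of families on blocks with at most
  `b` points;
* has diameter at most `(√2 - 1 - δ) |X|` in the Hamming distance;
* has at most `2^(1.02 n)` pairwise unions; or
* is a subfamily of `F`, disjoint from the other parts and invariant under an isometry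
  `A ↦ σ(A) ∆ D` of the cube with `|D| ≥ δ n`.
-/

namespace Pool.Agent.Results.MP_f69198_co.StructuredParts

open Finset

/-- Every subset of the ground set is the union of two members of `F`. -/
def UnionBasis {N : ℕ} (F : Finset (Finset (Fin N))) : Prop :=
  ∀ S : Finset (Fin N), ∃ A ∈ F, ∃ B ∈ F, A ∪ B = S

open scoped Classical in
/-- The set of all unions `A ∪ B` of two members of `F` (`A = B` allowed). -/
noncomputable def Unions {N : ℕ} (F : Finset (Finset (Fin N))) : Finset (Finset (Fin N)) :=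
  univ.filter fun S => ∃ A ∈ F, ∃ B ∈ F, A ∪ B = S

/-- For some set `I` of at most `θ n` points, at most `2 ^ (μ n)` members of `C` have the same
trace on `I`. -/
def TraceDetermined (θ μ : ℝ) {n : ℕ} (C : Finset (Finset (Fin (2 * n)))) : Prop :=
  ∃ I : Finset (Fin (2 * n)), (#I : ℝ) ≤ θ * n ∧
    ∀ T : Finset (Fin (2 * n)), (#(C.filter fun A => A ∩ I = T) : ℝ) ≤ 2 ^ (μ * n)

/-- `C` is contained in an affine subspace over the field with two elements (a family closed under
`A, B, D ↦ A ∆ B ∆ D`) with at most `2 ^ (θ n)` members. -/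
def InAffine (θ : ℝ) {n : ℕ} (C : Finset (Finset (Fin (2 * n)))) : Prop :=
  ∃ V : Finset (Finset (Fin (2 * n))), C ⊆ V ∧
    (∀ A ∈ V, ∀ B ∈ V, ∀ D ∈ V, symmDiff (symmDiff A B) D ∈ V) ∧ (#V : ℝ) ≤ 2 ^ (θ * n)

/-- `C` is contained in a down-set with at most `2 ^ (1.001 n)` members. -/
def InDownSet {n : ℕ} (C : Finset (Finset (Fin (2 * n)))) : Prop :=
  ∃ V : Finset (Finset (Fin (2 * n))), C ⊆ V ∧ (∀ A ∈ V, ∀ B, B ⊆ A → B ∈ V) ∧
    (#V : ℝ) ≤ 2 ^ ((1001 / 1000 : ℝ) * n)

/-- The ground set is partitioned into blocks (the fibres of `β`) with at most `b` points and there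
are families `G j` on the blocks, with product of cardinalities at most `2 ^ ((1 + μ) n)`, such
that the traces of all members of `C` on the block `j` belong to `G j`. -/
def InBlockProduct (b : ℕ) (μ : ℝ) {n : ℕ} (C : Finset (Finset (Fin (2 * n)))) : Prop :=
  ∃ (β : Fin (2 * n) → Fin (2 * n)) (G : Fin (2 * n) → Finset (Finset (Fin (2 * n)))),
    (∀ j, #(univ.filter fun x => β x = j) ≤ b) ∧
    (∀ j, ∀ D ∈ G j, D ⊆ univ.filter fun x => β x = j) ∧
    (∏ j, (#(G j) : ℝ)) ≤ 2 ^ ((1 + μ) * n) ∧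
    ∀ A ∈ C, ∀ j, A ∩ (univ.filter fun x => β x = j) ∈ G j

/-- All Hamming distances between members are at most `(√2 - 1 - δ) 2n`. -/
def Clustered (δ : ℝ) {n : ℕ} (C : Finset (Finset (Fin (2 * n)))) : Prop :=
  ∀ A ∈ C, ∀ B ∈ C, (#(symmDiff A B) : ℝ) ≤ (√2 - 1 - δ) * (2 * n)

/-- `C` has at most `2 ^ (1.02 n)` unions. This is the case, for example, if `C` is contained in a
union-closed family with at most `2 ^ (1.02 n)` members. -/
def FewUnions {n : ℕ} (C : Finset (Finset (Fin (2 * n)))) : Prop :=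
  (#(Unions C) : ℝ) ≤ 2 ^ ((51 / 50 : ℝ) * n)

/-- `C` is invariant under the isometry `A ↦ σ(A) ∆ D` of the cube, where `D` has at least `δ n`
points. -/
def Symmetric (δ : ℝ) {n : ℕ} (C : Finset (Finset (Fin (2 * n)))) : Prop :=
  ∃ (σ : Equiv.Perm (Fin (2 * n))) (D : Finset (Fin (2 * n))), δ * n ≤ (#D : ℝ) ∧
    ∀ A ∈ C, symmDiff (A.map σ.toEmbedding) D ∈ C

/-- The structured families. -/
def Structured (θ δ : ℝ) (b : ℕ) (μ : ℝ) {n : ℕ} (C : Finset (Finset (Fin (2 * n)))) : Prop :=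
  TraceDetermined θ μ C ∨ InAffine θ C ∨ InDownSet C ∨ InBlockProduct b μ C ∨ Clustered δ C ∨
    FewUnions C

/-- `F` is covered by at most `2 ^ (μ n)` families, each of which is structured or is a symmetric
subfamily of `F` disjoint from all the others. -/
def FewParts (θ δ : ℝ) (b : ℕ) (μ : ℝ) {n : ℕ} (F : Finset (Finset (Fin (2 * n)))) : Prop :=
  ∃ (M : ℕ) (C : Fin M → Finset (Finset (Fin (2 * n)))), (M : ℝ) ≤ 2 ^ (μ * n) ∧
    (∀ A ∈ F, ∃ k, A ∈ C k) ∧
    ∀ k, Structured θ δ b μ (C k) ∨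
      (Symmetric δ (C k) ∧ C k ⊆ F ∧ ∀ l, l ≠ k → Disjoint (C k) (C l))

/-- Let `θ < 1 / h(1 - 1/√2) = 1.146...`, where `h` is the binary entropy. For all `δ, ε > 0` and
`b` there is `μ > 0` such that for all large `n`, every family `F` of subsets of a `2n`-set
which is covered by at most `2 ^ (μ n)` parts of the above kinds has at most `|F|² / 4 + ε 4 ^ n`
unions; so, if all subsets are unions of two members, then `|F| ≥ (2 - ε) 2 ^ n`. -/
theorem result (θ : ℝ) (hθ : θ * Real.binEntropy (1 - 1 / √2) < Real.log 2)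
    (δ ε : ℝ) (hδ : 0 < δ) (hε : 0 < ε) (b : ℕ) :
    ∃ μ : ℝ, 0 < μ ∧ ∃ n₀ : ℕ, ∀ n ≥ n₀,
      ∀ F : Finset (Finset (Fin (2 * n))), FewParts θ δ b μ F →
        (#(Unions F) : ℝ) ≤ (#F : ℝ) ^ 2 / 4 + ε * 4 ^ n ∧
        (UnionBasis F → (2 - ε) * 2 ^ n ≤ (#F : ℝ)) := by
  classical
  set θ' : ℝ := max θ 0 with hθ'
  have hθ0 : 0 ≤ θ' := le_max_right _ _
  have hθ1 : θ ≤ θ' := le_max_left _ _
  have hθ2 : θ' * Real.binEntropy (1 - 1 / √2) < Real.log 2 := by
    rcases le_total θ 0 with h | h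
    · rw [hθ', max_eq_right h, zero_mul]
      exact Real.log_pos (by norm_num)
    · rw [hθ', max_eq_left h]
      exact hθ
  set e : ℝ := min ε (ε / 2) with he
  have he0 : 0 < e := lt_min hε (by positivity)
  obtain ⟨μ, hμ, n₀, h⟩ := Pool.Agent.Helper77.TP.class_parts θ' hθ0 hθ2 δ e hδ he0 (b + 1)
    (Nat.succ_pos b) 1 1 one_pos one_pos
  refine ⟨μ, hμ, n₀, ?_⟩
  intro n hn F hF
  obtain ⟨M, C, hM, hcov, hpart⟩ := hF
  have hnr : (0 : ℝ) ≤ n := Nat.cast_nonneg _
  have hmul : θ * n ≤ θ' * n := mul_le_mul_of_nonneg_right hθ1 hnr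
  have hUeq : ∀ G : Finset (Finset (Fin (2 * n))),
      (#(Unions G) : ℝ) = #(Pool.Agent.Helper77.TP.unions G) := by
    intro G
    congr 2
  have h1 := h n hn F M C hM hcov (by
    intro k
    rcases hpart k with (⟨I, hI1, hI2⟩ | ⟨V, hCV, hV, hc⟩ | hd | ⟨β, G, hβ, h2⟩ | hcl | hfu) |
      hs
    · exact Or.inl (Or.inl ⟨I, hI1.trans hmul, hI2⟩)
    · refine Or.inl (Or.inr (Or.inl ⟨V, hCV, hV, hc.trans ?_⟩))
      exact Real.rpow_le_rpow_of_exponent_le (by norm_num) hmul
    · exact Or.inl (Or.inr (Or.inr (Or.inl hd)))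
    · exact Or.inl (Or.inr (Or.inr (Or.inr (Or.inl ⟨β, G, fun j => (hβ j).trans (by omega), h2⟩))))
    · exact Or.inl (Or.inr (Or.inr (Or.inr (Or.inr (Or.inl hcl)))))
    · refine Or.inl (Or.inr (Or.inr (Or.inr (Or.inr (Or.inr (Or.inl ?_))))))
      rw [← hUeq]
      exact hfu
    · exact Or.inr hs)
  have h4 : (0 : ℝ) < 4 ^ n := by positivity
  have he1 : e * 4 ^ n ≤ ε * 4 ^ n := mul_le_mul_of_nonneg_right (min_le_left _ _) h4.le
  have he2 : e * 4 ^ n ≤ ε / 2 * 4 ^ n := mul_le_mul_of_nonneg_right (min_le_right _ _) h4.le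
  refine ⟨by rw [hUeq]; linarith, ?_⟩
  intro hB
  have hall : (#(Pool.Agent.Helper77.TP.unions F) : ℝ) = 4 ^ n := by
    have h2 : Pool.Agent.Helper77.TP.unions F = univ := by
      ext S
      simp only [mem_univ, iff_true]
      exact Pool.Agent.Helper77.TP.mem_unions.2 (hB S)
    rw [h2, card_univ, Fintype.card_finset, Fintype.card_fin, pow_mul]
    push_cast
    norm_num
  rw [hall] at h1
  have h4n : (4 : ℝ) ^ n = 2 ^ n * 2 ^ n := by rw [← mul_pow]; norm_num
  rw [h4n] at h1 he2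
  have hP : (0 : ℝ) < 2 ^ n := by positivity
  by_contra hcon
  push Not at hcon
  obtain ⟨P, hPd⟩ : ∃ P : ℝ, P = 2 ^ n := ⟨_, rfl⟩
  obtain ⟨m, hm⟩ : ∃ m : ℝ, m = #F := ⟨_, rfl⟩
  rw [← hPd] at hP hcon h1 he2
  rw [← hm] at hcon h1
  have hm0 : 0 ≤ m := by rw [hm]; positivity
  have h6 : 0 < ε * (P * P) := by positivity
  have h9 : m ^ 2 < 4 * (P * P) - 2 * (ε * (P * P)) := by
    have h10 : m * m < (2 - ε) * P * ((2 - ε) * P) :=
      mul_self_lt_mul_self hm0 hcon
    have hε2 : 0 < 2 - ε := by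
      by_contra hc
      push Not at hc
      nlinarith
    nlinarith
  nlinarith

end Pool.Agent.Results.MP_f69198_co.StructuredParts
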