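import Mathlib
import Pool.Agent.Helper77.TP.Adapt
import Pool.Agent.Results.MP_f69198_co.LocalQuasiRandom

/-!
# Every partition of a small union basis into few parts contains quasi-random pieces

Let `F` be a family of subsets of a set `X` with `2n` elements and let `F` be covered by at most
`2^(μ n)` families `C k`, for example partitioned in any way into so many parts. Then there are
subfamilies `Q k` of `C k` which are well-balanced: for EVERY subset `T` of `X`, all but a
proportion `ε` of the members of `Q k` have density about `1 - 1/√2` on `T` (that is, the incidence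
graph between `X` and `Q k` is quasi-random with density `1 - 1/√2`). If all subsets of `X` are
unions of two members of `F` and `|F| < (2 - ε) 2^n` then the `Q k` have together more than two
thirds of the members of `F`.
-/

namespace Pool.Agent.Results.MP_f69198_co.WellBalancedParts

open Finset

/-- Every subset of the ground set is the union of two members of `F`. -/
def UnionBasis {N : ℕ} (F : Finset (Finset (Fin N))) : Prop :=
  ∀ S : Finset (Fin N), ∃ A ∈ F, ∃ B ∈ F, A ∪ B = S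

open scoped Classical in
/-- The set of all unions `A ∪ B` of two members of `F` (`A = B` allowed). -/
noncomputable def Unions {N : ℕ} (F : Finset (Finset (Fin N))) : Finset (Finset (Fin N)) :=
  univ.filter fun S => ∃ A ∈ F, ∃ B ∈ F, A ∪ B = S

/-- `A` has about `(1 - 1/√2) |T|` points in `T`. -/
def Balanced {N : ℕ} (ε : ℝ) (T A : Finset (Fin N)) : Prop :=
  |(#(A ∩ T) : ℝ) - (1 - 1 / √2) * #T| ≤ ε * N

open scoped Classical in
/-- For every subset `T` of the ground set all but `ε |Q|` members of `Q` are balanced on `T`. -/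
def WellBalanced {N : ℕ} (ε : ℝ) (Q : Finset (Finset (Fin N))) : Prop :=
  ∀ T : Finset (Fin N), (#(Q.filter fun A => ¬ Balanced ε T A) : ℝ) ≤ ε * #Q

/-- For every `ε > 0` there is `μ > 0` such that for all large `n`, for every family `F` of subsets
of a set of `2n` elements which is covered by `M ≤ 2 ^ (μ n)` families `C k` there are well-balanced
families `Q k`, contained in `C k` and in `F`, such that
(1) some subfamily `F0` of the union of the `Q k` satisfies
`#Unions F ≤ |F0|²/2 + (|F| - |F0|)²/4 + ε 4^n`;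
(2) if all subsets are unions and `|F| < (2 - ε) 2^n` then the union of the `Q k` has more than
`2/3 |F|` members;
(3) if all subsets are unions and `|F| ≤ 1.75 · 2^n` then it has at least `0.795 |F|` members. -/
theorem result (ε : ℝ) (hε : 0 < ε) : ∃ μ : ℝ, 0 < μ ∧ ∃ n₀ : ℕ, ∀ n ≥ n₀,
    ∀ (F : Finset (Finset (Fin (2 * n)))) (M : ℕ) (C : Fin M → Finset (Finset (Fin (2 * n)))),
      (M : ℝ) ≤ 2 ^ (μ * n) → (∀ A ∈ F, ∃ k, A ∈ C k) →
      ∃ Q : Fin M → Finset (Finset (Fin (2 * n))),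
        (∀ k, Q k ⊆ C k ∧ Q k ⊆ F ∧ WellBalanced ε (Q k)) ∧
        (∃ F0 ⊆ univ.biUnion Q,
          (#(Unions F) : ℝ) ≤ (#F0 : ℝ) ^ 2 / 2 + ((#F : ℝ) - #F0) ^ 2 / 4 + ε * 4 ^ n) ∧
        (UnionBasis F → (#F : ℝ) < (2 - ε) * 2 ^ n → 2 / 3 * (#F : ℝ) < #(univ.biUnion Q)) ∧
        (UnionBasis F → (#F : ℝ) ≤ 7 / 4 * 2 ^ n →
          795 / 1000 * (#F : ℝ) ≤ #(univ.biUnion Q)) := by
  classical
  obtain ⟨μ₁, hμ₁, n₁, hmain⟩ := LocalQuasiRandom.result ε hε
  obtain ⟨n₂, hn₂⟩ := exists_nat_gt (96 / (ε * μ₁ ^ 2))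
  refine ⟨μ₁ / 2, by positivity, n₁ + n₂ + 1, ?_⟩
  intro n hn F M C hM hcov
  have hn0 : 0 < n := by omega
  have hnr : (0 : ℝ) < n := by exact_mod_cast hn0
  have hex : ∀ k : Fin M, ∃ D Q : Finset (Finset (Fin (2 * n))), (#D : ℝ) ≤ 3 / ε * n ∧
      Q ⊆ C k ∩ F ∧ (∀ A ∈ C k ∩ F, (∀ T ∈ D, Balanced ε T A) → A ∈ Q) ∧ WellBalanced ε Q := by
    intro k
    obtain ⟨D, hD, Q, hQ, hQ2, hwb⟩ :=
      Pool.Agent.Helper77.TP.adapt hn0 hε (le_refl ε) (C k ∩ F)
    exact ⟨D, Q, hD, hQ, hQ2, hwb⟩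
  choose D Q hD hQ hQ2 hwb using hex
  have hTT : (#(univ.biUnion D) : ℝ) ≤ 2 ^ (μ₁ * n) := by
    have h1 : (#(univ.biUnion D) : ℝ) ≤ ∑ k : Fin M, (#(D k) : ℝ) := by
      exact_mod_cast card_biUnion_le
    have h2 : ∑ k : Fin M, (#(D k) : ℝ) ≤ M * (3 / ε * n) := by
      refine (sum_le_sum fun k _ => hD k).trans (le_of_eq ?_)
      rw [sum_const, card_univ, Fintype.card_fin, nsmul_eq_mul]
    have h3 : 3 / ε * n ≤ 2 ^ (μ₁ / 2 * n) := by
      rw [Real.rpow_def_of_pos (by norm_num)]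
      have hlog : (1 / 2 : ℝ) ≤ Real.log 2 := by
        have := Real.log_two_gt_d9
        linarith
      have h4 := Real.quadratic_le_exp_of_nonneg (show (0 : ℝ) ≤ μ₁ / 4 * n by positivity)
      have h5 : Real.exp (μ₁ / 4 * n) ≤ Real.exp (Real.log 2 * (μ₁ / 2 * n)) := by
        apply Real.exp_le_exp.2
        have : 1 / 2 * (μ₁ / 2 * n) ≤ Real.log 2 * (μ₁ / 2 * n) :=
          mul_le_mul_of_nonneg_right hlog (by positivity)
        linarith
      have h6 : (n₂ : ℝ) ≤ n := by exact_mod_cast (by omega : n₂ ≤ n)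
      have h7 : 96 / (ε * μ₁ ^ 2) < n := by linarith
      rw [div_lt_iff₀ (by positivity)] at h7
      have h8 : 3 / ε * n ≤ (μ₁ / 4 * n) ^ 2 / 2 := by
        rw [div_mul_eq_mul_div, div_le_iff₀ hε]
        have h9 : (μ₁ / 4 * n) ^ 2 / 2 * ε = n * (n * (ε * μ₁ ^ 2)) / 32 := by ring
        rw [h9]
        have h10 : n * 96 ≤ n * (n * (ε * μ₁ ^ 2)) := mul_le_mul_of_nonneg_left h7.le hnr.le
        linarith
      have h11 : 0 ≤ μ₁ / 4 * n := by positivity
      linarith
    calc (#(univ.biUnion D) : ℝ) ≤ M * (3 / ε * n) := h1.trans h2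
      _ ≤ 2 ^ (μ₁ / 2 * n) * 2 ^ (μ₁ / 2 * n) := by gcongr
      _ = 2 ^ (μ₁ * n) := by
          rw [← Real.rpow_add (by norm_num)]
          congr 1
          ring
  obtain ⟨⟨F0, hF0, h1, -⟩, h2, h3⟩ := hmain n (by omega) F (univ.biUnion D) hTT
  have hsub : LocalQuasiRandom.Level ε (univ.biUnion D) F ⊆ univ.biUnion Q := by
    intro A hA
    rw [LocalQuasiRandom.Level, mem_filter] at hA
    obtain ⟨k, hk⟩ := hcov A hA.1
    refine mem_biUnion.2 ⟨k, mem_univ _, hQ2 k A (mem_inter.2 ⟨hk, hA.1⟩) fun T hT => ?_⟩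
    exact hA.2 T (mem_biUnion.2 ⟨k, mem_univ _, hT⟩)
  have hc : (#(LocalQuasiRandom.Level ε (univ.biUnion D) F) : ℝ) ≤ #(univ.biUnion Q) := by
    exact_mod_cast card_le_card hsub
  refine ⟨Q, fun k => ⟨(hQ k).trans inter_subset_left, (hQ k).trans inter_subset_right, hwb k⟩,
    ⟨F0, hF0.trans hsub, h1⟩, fun hB h => ?_, fun hB h => ?_⟩
  · exact lt_of_lt_of_le (h2 hB h).1 hc
  · exact (h3 hB h).1.trans hc

end Pool.Agent.Results.MP_f69198_co.WellBalancedParts
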